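import Pool.Graph.R_pool_sql_team_seeded_1acbe0a2.Y662.TR.L2

/-! The adjacency operator of a locally finite multigraph of bounded degree (Schur test). -/

set_option autoImplicit false

open scoped BigOperators InnerProductSpace Topology

namespace Pool.Agent.Helper82.PG

open Finset
open Pool.Agent.Y662.TR (LL dv lmk lmk_apply ll_inner ll_ext ll_summable ll_sum dv_apply inner_dv lmk_le)

section

variable {V : Type} {a : V → V → ℕ} {D : ℕ} (hs : ∀ x y, a x y = a y x)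
  (hf : ∀ x, (Function.support (a x)).Finite) (hD : ∀ x, ∑ᶠ y, a x y ≤ D)

include hf hD

theorem row_le (x : V) : ∑ y ∈ (hf x).toFinset, (a x y : ℝ) ≤ D := by
  have h := hD x
  rw [finsum_eq_sum_of_support_toFinset_subset (a x) (hf x) (Finset.Subset.refl _)] at h
  exact_mod_cast h

omit hD in
theorem row_sum {E : Type*} [AddCommMonoid E] [TopologicalSpace E] (x : V)
    (f : ℕ → V → E) (h0 : ∀ y, f 0 y = 0) :
    ∑' y, f (a x y) y = ∑ y ∈ (hf x).toFinset, f (a x y) y := by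
  refine tsum_eq_sum fun y hy => ?_
  have h : a x y = 0 := by
    by_contra h
    exact hy ((hf x).mem_toFinset.2 h)
  rw [h, h0]

omit hD in
theorem row_summable {E : Type*} [AddCommMonoid E] [TopologicalSpace E] (x : V)
    (f : ℕ → V → E) (h0 : ∀ y, f 0 y = 0) :
    Summable fun y => f (a x y) y := by
  refine summable_of_finite_support ((hf x).subset fun y hy h => hy ?_)
  show f (a x y) y = 0
  have h' : a x y = 0 := h
  rw [h', h0]

include hs

theorem schur (w : V → ℝ) (hw : ∀ y, 0 ≤ w y) (hsum : Summable w) :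
    Summable (fun x => ∑ y ∈ (hf x).toFinset, (a x y : ℝ) * w y) ∧
      ∑' x, ∑ y ∈ (hf x).toFinset, (a x y : ℝ) * w y ≤ D * ∑' y, w y := by
  have hcol : ∀ y : V, ∑' x, (a x y : ℝ) * w y = (∑ x ∈ (hf y).toFinset, (a y x : ℝ)) * w y := by
    intro y
    have h1 : ∀ x, (a x y : ℝ) * w y = (a y x : ℝ) * w y := fun x => by rw [hs x y]
    simp_rw [h1]
    rw [row_sum hf y (fun n _ => (n : ℝ) * w y) (fun _ => by simp), sum_mul]
  have hcs : ∀ y : V, Summable fun x => (a x y : ℝ) * w y := by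
    intro y
    have h1 : ∀ x, (a x y : ℝ) * w y = (a y x : ℝ) * w y := fun x => by rw [hs x y]
    simp_rw [h1]
    exact row_summable hf y (fun n _ => (n : ℝ) * w y) (fun _ => by simp)
  have hle : ∀ y : V, ∑' x, (a x y : ℝ) * w y ≤ D * w y := by
    intro y
    rw [hcol y]
    exact mul_le_mul_of_nonneg_right (row_le hf hD y) (hw y)
  have hcsum : Summable fun y => ∑' x, (a x y : ℝ) * w y :=
    Summable.of_nonneg_of_le (fun y => tsum_nonneg fun x => mul_nonneg (Nat.cast_nonneg _) (hw y)) hle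
      (hsum.mul_left _)
  have hprod : Summable fun p : V × V => (a p.2 p.1 : ℝ) * w p.1 := by
    rw [summable_prod_of_nonneg (fun p => mul_nonneg (Nat.cast_nonneg _) (hw p.1))]
    exact ⟨hcs, hcsum⟩
  have hprod2 : Summable fun p : V × V => (a p.1 p.2 : ℝ) * w p.2 := by
    have := (Equiv.prodComm V V).summable_iff.2 hprod
    exact this
  have hrow : ∀ x, ∑ y ∈ (hf x).toFinset, (a x y : ℝ) * w y = ∑' y, (a x y : ℝ) * w y := fun x =>
    (row_sum hf x (fun n y => (n : ℝ) * w y) (fun _ => by simp)).symm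
  simp_rw [hrow]
  refine ⟨hprod2.prod, ?_⟩
  have hcomm : ∑' x, ∑' y, (a x y : ℝ) * w y = ∑' y, ∑' x, (a x y : ℝ) * w y :=
    Summable.tsum_comm (f := fun y x => (a x y : ℝ) * w y) hprod
  rw [hcomm, ← tsum_mul_left]
  exact hcsum.tsum_le_tsum hle (hsum.mul_left _)

theorem adj_bound (u : LL V) :
    Summable (fun x => ‖∑ y ∈ (hf x).toFinset, (a x y : ℂ) * u y‖ ^ 2) ∧
      ∑' x, ‖∑ y ∈ (hf x).toFinset, (a x y : ℂ) * u y‖ ^ 2 ≤ (D * ‖u‖) ^ 2 := by
  obtain ⟨h1, h2⟩ := schur hs hf hD (fun y => ‖u y‖ ^ 2) (fun y => by positivity) (ll_summable u)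
  have h3 : ∀ x, ‖∑ y ∈ (hf x).toFinset, (a x y : ℂ) * u y‖ ^ 2 ≤
      D * ∑ y ∈ (hf x).toFinset, (a x y : ℝ) * ‖u y‖ ^ 2 := by
    intro x
    have h4 : ‖∑ y ∈ (hf x).toFinset, (a x y : ℂ) * u y‖ ≤ ∑ y ∈ (hf x).toFinset, (a x y : ℝ) * ‖u y‖ := by
      refine (norm_sum_le _ _).trans (le_of_eq (sum_congr rfl fun y _ => ?_))
      rw [norm_mul, Complex.norm_natCast]
    have h5 : (∑ y ∈ (hf x).toFinset, (a x y : ℝ) * ‖u y‖) ^ 2 ≤
        (∑ y ∈ (hf x).toFinset, (a x y : ℝ)) * ∑ y ∈ (hf x).toFinset, (a x y : ℝ) * ‖u y‖ ^ 2 :=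
      sum_sq_le_sum_mul_sum_of_sq_eq_mul _ (fun y _ => Nat.cast_nonneg _)
        (fun y _ => mul_nonneg (Nat.cast_nonneg _) (by positivity)) (fun y _ => by ring)
    calc ‖∑ y ∈ (hf x).toFinset, (a x y : ℂ) * u y‖ ^ 2
        ≤ (∑ y ∈ (hf x).toFinset, (a x y : ℝ) * ‖u y‖) ^ 2 := pow_le_pow_left₀ (norm_nonneg _) h4 2
      _ ≤ _ := h5
      _ ≤ _ := mul_le_mul_of_nonneg_right (row_le hf hD x)
        (sum_nonneg fun y _ => mul_nonneg (Nat.cast_nonneg _) (by positivity))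
  have h6 : Summable (fun x => ‖∑ y ∈ (hf x).toFinset, (a x y : ℂ) * u y‖ ^ 2) :=
    Summable.of_nonneg_of_le (fun x => by positivity) h3 (h1.mul_left _)
  refine ⟨h6, (h6.tsum_le_tsum h3 (h1.mul_left _)).trans ?_⟩
  rw [tsum_mul_left]
  have h7 : ∑' y, ‖u y‖ ^ 2 = ‖u‖ ^ 2 := (ll_sum u).tsum_eq
  rw [h7] at h2
  calc (D : ℝ) * ∑' x, ∑ y ∈ (hf x).toFinset, (a x y : ℝ) * ‖u y‖ ^ 2 ≤ D * (D * ‖u‖ ^ 2) :=
        mul_le_mul_of_nonneg_left h2 (Nat.cast_nonneg _)
    _ = _ := by ring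

/-- the adjacency operator -/
noncomputable def Aop : LL V →L[ℂ] LL V :=
  LinearMap.mkContinuous
    { toFun := fun u => lmk (fun x => ∑ y ∈ (hf x).toFinset, (a x y : ℂ) * u y) (adj_bound hs hf hD u).1
      map_add' := fun u v => by
        apply ll_ext
        intro x
        change ∑ y ∈ (hf x).toFinset, (a x y : ℂ) * (u y + v y) =
          ∑ y ∈ (hf x).toFinset, (a x y : ℂ) * u y + ∑ y ∈ (hf x).toFinset, (a x y : ℂ) * v y
        rw [← sum_add_distrib]
        exact sum_congr rfl fun y _ => by ring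
      map_smul' := fun c u => by
        apply ll_ext
        intro x
        change ∑ y ∈ (hf x).toFinset, (a x y : ℂ) * (c * u y) =
          c * ∑ y ∈ (hf x).toFinset, (a x y : ℂ) * u y
        rw [mul_sum]
        exact sum_congr rfl fun y _ => by ring } D (fun u => by
      exact lmk_le _ (adj_bound hs hf hD u).1 _ (by positivity) (adj_bound hs hf hD u).2)

theorem Aop_apply (u : LL V) (x : V) : Aop hs hf hD u x = ∑' y, (a x y : ℂ) * u y := by
  rw [row_sum hf x (fun n y => (n : ℂ) * u y) (fun _ => by simp)]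
  rfl

theorem Aop_norm : ‖Aop hs hf hD‖ ≤ D := LinearMap.mkContinuous_norm_le _ (Nat.cast_nonneg _) _

open Classical in
theorem Aop_dv (b x : V) : Aop hs hf hD (dv b) x = (a x b : ℂ) := by
  rw [Aop_apply, tsum_eq_single b]
  · rw [dv_apply, if_pos rfl, mul_one]
  · intro y hy
    rw [dv_apply, if_neg hy, mul_zero]

theorem Aop_sa : IsSelfAdjoint (Aop hs hf hD) := by
  rw [IsSelfAdjoint, ContinuousLinearMap.star_eq_adjoint]
  ext u : 1
  apply ll_ext
  intro b
  rw [← inner_dv b, ContinuousLinearMap.adjoint_inner_right, ← (ll_inner _ _).tsum_eq, Aop_apply]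
  refine tsum_congr fun x => ?_
  rw [Aop_dv, Complex.conj_natCast, hs x b]

end

/-- P7 -/
theorem adj : ∀ (V : Type) [Countable V] (a : V → V → ℕ) (D : ℕ), (∀ x y, a x y = a y x) →
    (∀ x, (Function.support (a x)).Finite) → (∀ x, ∑ᶠ y, a x y ≤ D) →
    ∃ L : LL V →L[ℂ] LL V, IsSelfAdjoint L ∧ ∀ (u : LL V) (x : V), L u x = ∑' y, (a x y : ℂ) * u y :=
  fun _ _ _ _ hs hf hD => ⟨Aop hs hf hD, Aop_sa hs hf hD, Aop_apply hs hf hD⟩

end Pool.Agent.Helper82.PG
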